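import Pool.Agent.Helper25.Defs
import Pool.Agent.Helper25.Smooth

/-!
Type A: a homeomorphism of `E^n` is approximable by the group generated by the homeomorphisms
changing one coordinate iff it is approximable by `C^k` diffeomorphisms, for every `1 ≤ k ≤ ∞`.
-/

namespace Pool.Agent.Results.MP_0907b2_gt.DiffeoClosure

open Pool.Agent.Helper25

theorem result (n : ℕ) (k : ℕ∞) (hk : 1 ≤ k)
    (h : EuclideanSpace ℝ (Fin n) ≃ₜ EuclideanSpace ℝ (Fin n)) :
    ApproximableBy (groupA n : Set (EuclideanSpace ℝ (Fin n) ≃ₜ EuclideanSpace ℝ (Fin n))) h ↔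
      ApproximableBy {g | ContDiff ℝ k g ∧ ContDiff ℝ k g.symm} h := by
  constructor
  · intro hh
    have h1 : diffGroup (EuclideanSpace ℝ (Fin n)) ((⊤ : ℕ∞) : WithTop ℕ∞) ≤
        diffGroup (EuclideanSpace ℝ (Fin n)) k := diffGroup_mono (by exact_mod_cast le_top)
    exact (smooth_approximable_of_groupA hh).mono h1
  · intro hh
    have h1 : diffGroup (EuclideanSpace ℝ (Fin n)) k ≤ diffGroup (EuclideanSpace ℝ (Fin n)) 1 :=
      diffGroup_mono (by exact_mod_cast hk)
    have h2 : Approximable (diffGroup (EuclideanSpace ℝ (Fin n)) k) h := hh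
    exact (stdGroup_approximable_of_diff (h2.mono h1)).mono (stdGroup_le_groupA n)

end Pool.Agent.Results.MP_0907b2_gt.DiffeoClosure
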