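import Pool.Agent.Helper25.Defs
import Pool.Agent.Helper25.Smooth

/-!
Type A: a homeomorphism of `E^n` is approximable by the group generated by the homeomorphisms
changing one coordinate iff it is approximable by piecewise linear homeomorphisms.
-/

namespace Pool.Agent.Results.MP_0907b2_gt.PLClosure

open Pool.Agent.Helper25

theorem result (n : ℕ) (h : EuclideanSpace ℝ (Fin n) ≃ₜ EuclideanSpace ℝ (Fin n)) :
    ApproximableBy (groupA n : Set (EuclideanSpace ℝ (Fin n) ≃ₜ EuclideanSpace ℝ (Fin n))) h ↔
      ApproximableBy {g | IsPiecewiseLinear g} h := by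
  constructor
  · intro hh
    exact approximable_trans (G' := plGroup (EuclideanSpace ℝ (Fin n)))
      (fun g hg => stdGroup_approximable_plGroup hg) (stdGroup_approximable_of_groupA hh)
  · intro hh
    exact approximable_trans (G := plGroup (EuclideanSpace ℝ (Fin n))) (G' := groupA n)
      (fun g hg => (piecewiseLinear_approximable hg).mono (stdGroup_le_groupA n)) hh

end Pool.Agent.Results.MP_0907b2_gt.PLClosure
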