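import Pool.Agent.MOT.Moise

/-!
Type A, dimension three: every homeomorphism of `E^3` is approximable by the group generated by
the homeomorphisms changing one coordinate.
-/

namespace Pool.Agent.Results.MP_0907b2_gt.TypeAThree

open Pool.Agent.Helper25

theorem result (h : EuclideanSpace ℝ (Fin 3) ≃ₜ EuclideanSpace ℝ (Fin 3)) :
    ApproximableBy (groupA 3 : Set (EuclideanSpace ℝ (Fin 3) ≃ₜ EuclideanSpace ℝ (Fin 3))) h :=
  MOT.moise_groupA h

end Pool.Agent.Results.MP_0907b2_gt.TypeAThree
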