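import Pool.Agent.MOT.Moise

/-!
Type B: every homeomorphism of `E^3` is approximable by the group generated by the homeomorphisms
`(x, y, z) ↦ (f (y, z), g (x, z), k (x, y))`.
-/

namespace Pool.Agent.Results.MP_0907b2_gt.TypeBAll

open Pool.Agent.Helper25

theorem result (h : EuclideanSpace ℝ (Fin 3) ≃ₜ EuclideanSpace ℝ (Fin 3)) :
    ApproximableBy (groupB : Set (EuclideanSpace ℝ (Fin 3) ≃ₜ EuclideanSpace ℝ (Fin 3))) h :=
  MOT.moise_groupB h

end Pool.Agent.Results.MP_0907b2_gt.TypeBAll
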